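import Mathlib

set_option autoImplicit false

namespace Pool.Agent.Lib.MP_150b74_co

open Finset

/-! ### Erdős' lower bound for the two-colour graph Ramsey number, by counting -/

/-- number of Boolean functions with prescribed constant value on a set -/
lemma card_const_on {X : Type*} [Fintype X] [DecidableEq X] (P : Finset X) (b : Bool) :
    (univ.filter (fun f : X → Bool => ∀ x ∈ P, f x = b)).card * 2 ^ P.card =
      2 ^ Fintype.card X := by
  classical
  have h1 : univ.filter (fun f : X → Bool => ∀ x ∈ P, f x = b) =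
      Fintype.piFinset (fun x => if x ∈ P then {b} else univ) := by
    ext f
    simp only [mem_filter, mem_univ, true_and, Fintype.mem_piFinset]
    constructor
    · intro h x
      by_cases hx : x ∈ P
      · rw [if_pos hx, mem_singleton]; exact h x hx
      · rw [if_neg hx]; exact mem_univ _
    · intro h x hx
      have := h x
      rwa [if_pos hx, mem_singleton] at this
  rw [h1, Fintype.card_piFinset]
  have h2 : ∀ x : X, (if x ∈ P then ({b} : Finset Bool) else univ).card =
      if x ∈ P then 1 else 2 := by
    intro x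
    split_ifs
    · exact card_singleton b
    · rfl
  rw [prod_congr rfl (fun x _ => h2 x), prod_ite, prod_const_one, one_mul, prod_const]
  rw [← pow_add]
  congr 1
  have h3 : (univ.filter (fun x => x ∉ P)) = Pᶜ := by
    ext x; simp
  rw [h3, card_compl]
  have := card_le_univ P
  omega

/-- There is a two-colouring of the pairs of a set of `2 ^ s` elements without a monochromatic
set of `2 s + 1` elements. -/
lemma exists_pair_coloring (s : ℕ) (hs : 1 ≤ s) :
    ∃ χ : Finset (Fin (2 ^ s)) → Bool, ∀ (T : Finset (Fin (2 ^ s))) (b : Bool),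
      (∀ e ∈ T.powersetCard 2, χ e = b) → T.card ≤ 2 * s := by
  classical
  by_contra hcon
  push Not at hcon
  set m := 2 ^ s with hm
  set t := 2 * s + 1 with ht
  set X := Finset (Fin m) with hX
  -- every colouring has a monochromatic set of exactly `t` elements
  have h1 : ∀ χ : X → Bool, ∃ T ∈ powersetCard t (univ : Finset (Fin m)), ∃ b : Bool,
      ∀ e ∈ T.powersetCard 2, χ e = b := by
    intro χ
    obtain ⟨T, b, hT, hcard⟩ := hcon χ
    obtain ⟨T', hT', hc'⟩ := exists_subset_card_eq (show t ≤ T.card by omega)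
    refine ⟨T', mem_powersetCard.mpr ⟨subset_univ _, hc'⟩, b, ?_⟩
    intro e he
    apply hT
    rw [mem_powersetCard] at he ⊢
    exact ⟨he.1.trans hT', he.2⟩
  have h2 : (univ : Finset (X → Bool)) ⊆
      (powersetCard t (univ : Finset (Fin m)) ×ˢ (univ : Finset Bool)).biUnion
        (fun Tb => univ.filter (fun χ : X → Bool => ∀ e ∈ Tb.1.powersetCard 2, χ e = Tb.2)) := by
    intro χ _
    obtain ⟨T, hT, b, hb⟩ := h1 χ
    rw [mem_biUnion]
    exact ⟨(T, b), mem_product.mpr ⟨hT, mem_univ _⟩, mem_filter.mpr ⟨mem_univ _, hb⟩⟩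
  have h3 := (card_le_card h2).trans card_biUnion_le
  -- compute
  have h4 : ∀ Tb ∈ powersetCard t (univ : Finset (Fin m)) ×ˢ (univ : Finset Bool),
      (univ.filter (fun χ : X → Bool => ∀ e ∈ Tb.1.powersetCard 2, χ e = Tb.2)).card *
        2 ^ (s * t) = 2 ^ Fintype.card X := by
    intro Tb hTb
    rw [mem_product, mem_powersetCard] at hTb
    have h5 : (Tb.1.powersetCard 2).card = s * t := by
      rw [card_powersetCard, hTb.1.2, Nat.choose_two_right, ht]
      rw [show (2 * s + 1) * (2 * s + 1 - 1) = 2 * (s * (2 * s + 1)) by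
        rw [Nat.add_sub_cancel]; ring]
      exact Nat.mul_div_cancel_left _ (by norm_num)
    rw [← h5]
    exact card_const_on _ _
  have h5 : 2 ^ Fintype.card X * 2 ^ (s * t) ≤ (m.choose t * 2) * 2 ^ Fintype.card X := by
    have h6 : (univ : Finset (X → Bool)).card = 2 ^ Fintype.card X := by
      rw [card_univ, Fintype.card_fun, Fintype.card_bool]
    rw [h6] at h3
    calc 2 ^ Fintype.card X * 2 ^ (s * t)
        ≤ (∑ Tb ∈ powersetCard t (univ : Finset (Fin m)) ×ˢ (univ : Finset Bool),
          (univ.filter (fun χ : X → Bool => ∀ e ∈ Tb.1.powersetCard 2, χ e = Tb.2)).card) *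
            2 ^ (s * t) := Nat.mul_le_mul_right _ h3
      _ = ∑ Tb ∈ powersetCard t (univ : Finset (Fin m)) ×ˢ (univ : Finset Bool),
          2 ^ Fintype.card X := by
            rw [sum_mul]
            exact sum_congr rfl h4
      _ = (m.choose t * 2) * 2 ^ Fintype.card X := by
            rw [sum_const, card_product, card_powersetCard, card_univ, Fintype.card_fin,
              card_univ, Fintype.card_bool, smul_eq_mul]
  have h6 : 2 ^ (s * t) ≤ m.choose t * 2 := by
    have hpos : 0 < 2 ^ Fintype.card X := by positivity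
    rw [mul_comm (2 ^ Fintype.card X)] at h5
    exact Nat.le_of_mul_le_mul_right h5 hpos
  have h7 : t.factorial * m.choose t ≤ m ^ t := by
    have := Nat.descFactorial_eq_factorial_mul_choose m t
    rw [← this]
    exact Nat.descFactorial_le_pow m t
  have h8 : m ^ t = 2 ^ (s * t) := by rw [hm, ← pow_mul]
  have h9 : 6 ≤ t.factorial := by
    have : Nat.factorial 3 ≤ t.factorial := Nat.factorial_le (by omega)
    exact le_trans (le_of_eq (by rfl)) this
  have hpos : 0 < 2 ^ (s * t) := by positivity
  rw [h8] at h7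
  have h10 : 6 * m.choose t ≤ 2 ^ (s * t) := (Nat.mul_le_mul_right _ h9).trans h7
  omega

/-! ### Stepping up from pairs (2 colours) to triples (4 colours) -/

/-- the least level at which the members of `A` do not all agree -/
noncomputable def lev (A : Finset (ℕ → Bool)) : ℕ :=
  sInf {i : ℕ | ∃ x ∈ A, ∃ y ∈ A, x i ≠ y i}

lemma lev_eq {A : Finset (ℕ → Bool)} {i : ℕ} (h1 : ∃ x ∈ A, ∃ y ∈ A, x i ≠ y i)
    (h2 : ∀ l < i, ∀ x ∈ A, ∀ y ∈ A, x l = y l) : lev A = i := by
  unfold lev
  apply le_antisymm
  · exact Nat.sInf_le h1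
  · apply le_csInf ⟨i, h1⟩
    intro l hl
    by_contra hc
    obtain ⟨x, hx, y, hy, hxy⟩ := hl
    exact hxy (h2 l (by omega) x hx y hy)

/-- the four-colouring of the triples -/
noncomputable def stepCol (χ : Finset ℕ → Bool) (e : Finset (ℕ → Bool)) : Bool × Bool :=
  if (e.filter (fun x => x (lev e) = true)).card = 1 then
    (χ {lev e, lev (e.filter (fun x => x (lev e) = false))}, true)
  else (χ {lev e, lev (e.filter (fun x => x (lev e) = true))}, false)

/-- the colour of a triple `{a, b, c}` where `a` separates from `b, c` at level `i` and `b, c`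
separate at a later level `j` -/
lemma stepCol_eq [DecidableEq (ℕ → Bool)] (χ : Finset ℕ → Bool) {a b c : ℕ → Bool} {i j : ℕ} (hij : i < j)
    (hab : a i ≠ b i) (hlow : ∀ l < i, a l = b l) (hbc : ∀ l < j, b l = c l)
    (hj : b j ≠ c j) : stepCol χ {a, b, c} = (χ {i, j}, a i) := by
  have hbci : b i = c i := hbc i hij
  have hbc' : b ≠ c := fun h => hj (by rw [h])
  have hlev : lev {a, b, c} = i := by
    apply lev_eq
    · exact ⟨a, by simp, b, by simp, hab⟩
    · intro l hl x hx y hy
      have e1 := hlow l hl
      have e2 := hbc l (by omega)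
      simp only [mem_insert, mem_singleton] at hx hy
      rcases hx with rfl | rfl | rfl <;> rcases hy with rfl | rfl | rfl <;>
        simp_all
  have hlev2 : lev {b, c} = j := by
    apply lev_eq
    · exact ⟨b, by simp, c, by simp, hj⟩
    · intro l hl x hx y hy
      have e2 := hbc l hl
      simp only [mem_insert, mem_singleton] at hx hy
      rcases hx with rfl | rfl <;> rcases hy with rfl | rfl <;>
        simp_all
  unfold stepCol
  rw [hlev]
  cases hai : a i with
  | true =>
    have hbi : b i = false := by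
      cases hb : b i with
      | false => rfl
      | true => exact absurd (hai.trans hb.symm) hab
    have hci : c i = false := hbci ▸ hbi
    have f1 : ({a, b, c} : Finset (ℕ → Bool)).filter (fun x => x i = true) = {a} := by
      ext x
      simp only [mem_filter, mem_insert, mem_singleton]
      constructor
      · rintro ⟨rfl | rfl | rfl, h⟩
        · rfl
        · rw [hbi] at h; exact absurd h (by decide)
        · rw [hci] at h; exact absurd h (by decide)
      · rintro rfl; exact ⟨Or.inl rfl, hai⟩
    have f2 : ({a, b, c} : Finset (ℕ → Bool)).filter (fun x => x i = false) = {b, c} := by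
      ext x
      simp only [mem_filter, mem_insert, mem_singleton]
      constructor
      · rintro ⟨rfl | rfl | rfl, h⟩
        · rw [hai] at h; exact absurd h (by decide)
        · exact Or.inl rfl
        · exact Or.inr rfl
      · rintro (rfl | rfl)
        · exact ⟨Or.inr (Or.inl rfl), hbi⟩
        · exact ⟨Or.inr (Or.inr rfl), hci⟩
    rw [f1, f2, card_singleton, if_pos rfl, hlev2]
  | false =>
    have hbi : b i = true := by
      cases hb : b i with
      | true => rfl
      | false => exact absurd (hai.trans hb.symm) hab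
    have hci : c i = true := hbci ▸ hbi
    have f1 : ({a, b, c} : Finset (ℕ → Bool)).filter (fun x => x i = true) = {b, c} := by
      ext x
      simp only [mem_filter, mem_insert, mem_singleton]
      constructor
      · rintro ⟨rfl | rfl | rfl, h⟩
        · rw [hai] at h; exact absurd h (by decide)
        · exact Or.inl rfl
        · exact Or.inr rfl
      · rintro (rfl | rfl)
        · exact ⟨Or.inr (Or.inl rfl), hbi⟩
        · exact ⟨Or.inr (Or.inr rfl), hci⟩
    rw [f1, card_pair hbc', if_neg (by norm_num), hlev2]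

lemma bool_three (p q r : Bool) (h1 : p ≠ q) (h2 : p ≠ r) (h3 : q ≠ r) : False := by
  cases p <;> cases q <;> cases r <;> simp_all

/-- two distinct sequences separate at some first level -/
lemma exists_sep {x y : ℕ → Bool} (h : x ≠ y) : ∃ i, x i ≠ y i ∧ ∀ l < i, x l = y l := by
  classical
  have h1 : ∃ i, x i ≠ y i := Function.ne_iff.mp h
  refine ⟨Nat.find h1, Nat.find_spec h1, ?_⟩
  intro l hl
  exact not_not.mp (Nat.find_min h1 hl)

/-- A monochromatic set `S` of triples gives a monochromatic set of `|S| - 1` levels for `χ`. -/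
lemma mono_levels (χ : Finset ℕ → Bool) (c0 β : Bool) :
    ∀ (k : ℕ) (S : Finset (ℕ → Bool)), S.card = k + 1 →
      (∀ e ∈ S.powersetCard 3, stepCol χ e = (c0, β)) →
      ∃ T : Finset ℕ, T.card = k ∧ (∀ e ∈ T.powersetCard 2, χ e = c0) ∧
        ∀ j ∈ T, ∃ x ∈ S, ∃ y ∈ S, x j ≠ y j ∧ ∀ l < j, x l = y l := by
  classical
  intro k
  induction k with
  | zero =>
    intro S _ _
    refine ⟨∅, rfl, ?_, ?_⟩
    · intro e he
      rw [mem_powersetCard, subset_empty] at he
      rw [he.1] at he
      exact absurd he.2 (by simp)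
    · intro j hj; exact absurd hj (notMem_empty _)
  | succ k ih =>
    intro S hS hmono
    -- first level at which S is not constant
    have hex : ∃ i, ∃ x ∈ S, ∃ y ∈ S, x i ≠ y i := by
      obtain ⟨x, hx, y, hy, hxy⟩ := one_lt_card.mp (show 1 < S.card by omega)
      obtain ⟨i, hi, _⟩ := exists_sep hxy
      exact ⟨i, x, hx, y, hy, hi⟩
    set i := Nat.find hex with hi
    obtain ⟨x0, hx0, y0, hy0, hxy0⟩ := Nat.find_spec hex
    have hlow : ∀ l < i, ∀ x ∈ S, ∀ y ∈ S, x l = y l := by
      intro l hl x hx y hy
      by_contra hc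
      exact Nat.find_min hex hl ⟨x, hx, y, hy, hc⟩
    -- the two parts
    have htri : ∀ a b c : ℕ → Bool, a ∈ S → b ∈ S → c ∈ S → a ≠ b → a ≠ c → b ≠ c →
        stepCol χ {a, b, c} = (c0, β) := by
      intro a b c ha hb hc h1 h2 h3
      apply hmono
      rw [mem_powersetCard]
      refine ⟨?_, card_eq_three.mpr ⟨a, b, c, h1, h2, h3, rfl⟩⟩
      intro z hz
      simp only [mem_insert, mem_singleton] at hz
      rcases hz with rfl | rfl | rfl <;> assumption
    -- key: a lone element a on one side, b ≠ c on the other side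
    have hkey : ∀ a b c : ℕ → Bool, a ∈ S → b ∈ S → c ∈ S → a i ≠ b i → b i = c i → b ≠ c →
        ∀ j, b j ≠ c j → (∀ l < j, b l = c l) → χ {i, j} = c0 ∧ a i = β := by
      intro a b c ha hb hc hab hbci hbc j hj hjl
      have hij : i < j := by
        by_contra hcon
        rcases Nat.lt_or_ge j i with h | h
        · exact hj (hlow j h b hb c hc)
        · have : j = i := by omega
          rw [this] at hj
          exact hj hbci
      have h1 := stepCol_eq χ hij hab (fun l hl => hlow l hl a ha b hb) hjl hj
      have h2 := htri a b c ha hb hc (fun h => hab (by rw [h]))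
        (fun h => hab (by rw [h, hbci])) hbc
      rw [h1] at h2
      exact ⟨congrArg Prod.fst h2, congrArg Prod.snd h2⟩
    -- one of the parts is a singleton
    obtain ⟨a, ha, hrest⟩ : ∃ a ∈ S, ∀ b ∈ S, b ≠ a → b i ≠ a i := by
      by_contra hcon
      push Not at hcon
      obtain ⟨b, hb, hbx, hbx'⟩ := hcon x0 hx0
      obtain ⟨c, hc, hcy, hcy'⟩ := hcon y0 hy0
      obtain ⟨j, hj, hjl⟩ := exists_sep hcy
      obtain ⟨j', hj', hjl'⟩ := exists_sep hbx
      have h1 := (hkey x0 c y0 hx0 hc hy0 (by rw [hcy']; exact hxy0) hcy' hcy j hj hjl).2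
      have h2 := (hkey y0 b x0 hy0 hb hx0 (by rw [hbx']; exact hxy0.symm) hbx' hbx j' hj' hjl').2
      exact hxy0 (h1.trans h2.symm)
    have hS' : (S.erase a).card = k + 1 := by
      rw [card_erase_of_mem ha, hS]; rfl
    obtain ⟨T, hT1, hT2, hT3⟩ := ih (S.erase a) hS' (fun e he => hmono e (by
      rw [mem_powersetCard] at he ⊢
      exact ⟨he.1.trans (erase_subset _ _), he.2⟩))
    have hTgt : ∀ j ∈ T, i < j := by
      intro j hj
      obtain ⟨x, hx, y, hy, hxy, _⟩ := hT3 j hj
      rw [mem_erase] at hx hy
      by_contra hcon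
      rcases Nat.lt_or_ge j i with h | h
      · exact hxy (hlow j h x hx.2 y hy.2)
      · have hji : j = i := by omega
        rw [hji] at hxy
        have h1 := hrest x hx.2 hx.1
        have h2 := hrest y hy.2 hy.1
        exact bool_three _ _ _ hxy h1 h2
    have hiT : i ∉ T := fun h => lt_irrefl _ (hTgt i h)
    refine ⟨insert i T, by rw [card_insert_of_notMem hiT, hT1], ?_, ?_⟩
    · intro e he
      rw [mem_powersetCard] at he
      obtain ⟨u, v, huv, rfl⟩ := card_eq_two.mp he.2
      have hpair : ∀ j ∈ T, χ {i, j} = c0 := by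
        intro j hj
        obtain ⟨x, hx, y, hy, hxy, hxyl⟩ := hT3 j hj
        rw [mem_erase] at hx hy
        have hxyi : x i = y i := hxyl i (hTgt j hj)
        have hax : a i ≠ x i := (hrest x hx.2 hx.1).symm
        exact (hkey a x y ha hx.2 hy.2 hax hxyi (fun h => hxy (by rw [h])) j hxy hxyl).1
      have hu := he.1 (mem_insert_self u {v})
      have hv := he.1 (mem_insert_of_mem (mem_singleton_self v))
      rw [mem_insert] at hu hv
      rcases hu with rfl | hu
      · rcases hv with rfl | hv
        · exact absurd rfl huv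
        · exact hpair v hv
      · rcases hv with rfl | hv
        · rw [pair_comm]; exact hpair u hu
        · apply hT2
          rw [mem_powersetCard]
          refine ⟨?_, card_pair huv⟩
          intro z hz
          rw [mem_insert, mem_singleton] at hz
          rcases hz with rfl | rfl <;> assumption
    · intro j hj
      rw [mem_insert] at hj
      rcases hj with rfl | hj
      · exact ⟨x0, hx0, y0, hy0, hxy0, fun l hl => hlow l hl x0 hx0 y0 hy0⟩
      · obtain ⟨x, hx, y, hy, hxy, hxyl⟩ := hT3 j hj
        exact ⟨x, (mem_erase.mp hx).2, y, (mem_erase.mp hy).2, hxy, hxyl⟩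

/-- Four-colour stepping up: the triples of a set with at most `2 ^ (2 ^ s)` elements can be
coloured with four colours without a monochromatic set of `2 s + 2` elements. -/
theorem exists_triple_coloring (s : ℕ) (hs : 1 ≤ s) (n : ℕ) (hn : n ≤ 2 ^ (2 ^ s)) :
    ∃ φ : Finset (Fin n) → Bool × Bool, ∀ (S : Finset (Fin n)) (c : Bool × Bool),
      (∀ e ∈ S.powersetCard 3, φ e = c) → S.card ≤ 2 * s + 1 := by
  classical
  obtain ⟨χ, hχ⟩ := exists_pair_coloring s hs
  generalize 2 ^ s = m at χ hχ hn
  -- extend χ to sets of natural numbers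
  let χ' : Finset ℕ → Bool := fun A => χ (univ.filter (fun i : Fin m => (i : ℕ) ∈ A))
  -- the vertices
  have hcard : Fintype.card (Fin n) ≤ Fintype.card (Fin m → Bool) := by
    rw [Fintype.card_fin, Fintype.card_fun, Fintype.card_bool, Fintype.card_fin]
    exact hn
  obtain ⟨f⟩ := Function.Embedding.nonempty_of_card_le hcard
  let g : Fin n → (ℕ → Bool) := fun v i => if h : i < m then f v ⟨i, h⟩ else false
  have hg : Function.Injective g := by
    intro v w hvw
    apply f.injective
    funext i
    have := congrFun hvw (i : ℕ)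
    simpa [g] using this
  refine ⟨fun e => stepCol χ' (e.map ⟨g, hg⟩), ?_⟩
  rintro S ⟨c0, β⟩ hmono
  by_contra hcon
  push Not at hcon
  obtain ⟨k, hk⟩ : ∃ k, S.card = k + 1 := ⟨S.card - 1, by omega⟩
  obtain ⟨T, hT1, hT2, hT3⟩ := mono_levels χ' c0 β k (S.map ⟨g, hg⟩) (by rw [card_map, hk]) (by
    intro e he
    rw [mem_powersetCard] at he
    obtain ⟨e', he', rfl⟩ := subset_map_iff.mp he.1
    apply hmono
    rw [mem_powersetCard]
    rw [card_map] at he
    exact ⟨he', he.2⟩)
  have hTm : ∀ j ∈ T, j < m := by
    intro j hj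
    obtain ⟨x, hx, y, hy, hxy, _⟩ := hT3 j hj
    by_contra hc
    rw [mem_map] at hx hy
    obtain ⟨v, _, rfl⟩ := hx
    obtain ⟨w, _, rfl⟩ := hy
    apply hxy
    simp [g, hc]
  let T' : Finset (Fin m) := univ.filter (fun i : Fin m => (i : ℕ) ∈ T)
  have hT'card : T'.card = k := by
    rw [← hT1]
    apply card_bij (fun (i : Fin m) _ => (i : ℕ))
    · intro i hi; exact (mem_filter.mp hi).2
    · intro i _ j _ h; exact Fin.ext h
    · intro j hj
      exact ⟨⟨j, hTm j hj⟩, mem_filter.mpr ⟨mem_univ _, hj⟩, rfl⟩
  have hle := hχ T' c0 (by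
    intro e he
    rw [mem_powersetCard] at he
    have h1 := hT2 (e.map Fin.valEmbedding) (by
      rw [mem_powersetCard, card_map]
      refine ⟨?_, he.2⟩
      intro j hj
      rw [mem_map] at hj
      obtain ⟨i, hi, rfl⟩ := hj
      exact (mem_filter.mp (he.1 hi)).2)
    have h2 : univ.filter (fun i : Fin m => (i : ℕ) ∈ e.map Fin.valEmbedding) = e := by
      ext i
      simp only [mem_filter, mem_univ, true_and, mem_map, Fin.valEmbedding_apply]
      constructor
      · rintro ⟨j, hj, hji⟩
        rwa [← Fin.ext hji]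
      · intro hi; exact ⟨i, hi, rfl⟩
    simp only [χ'] at h1
    rwa [h2] at h1)
  omega

end Pool.Agent.Lib.MP_150b74_co
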